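import Mathlib
import Pool.Agent.W708.MZ.Expl

set_option autoImplicit false

namespace Pool.Agent.Results.MP_3d0d30_nt.ExplicitRange

open Complex

/-- The moment `M_k(T)`: the integral of `|ζ(1/2+it)|^(2k)` over `0 ≤ t ≤ T`, for real `k`. -/
noncomputable def M (k T : ℝ) : ℝ :=
  ∫ t in (0 : ℝ)..T, ‖riemannZeta (1 / 2 + t * I)‖ ^ (2 * k)

/-- For every real `k ≥ 7` the inequality `M_k(T) ≤ T (log T)^(k^2)` of Q2 holds for every `T`
with `1000 < T ≤ k^k`. -/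
theorem result :
    ∀ k : ℝ, 7 ≤ k → ∀ T : ℝ, 1000 < T → T ≤ k ^ k →
      M k T ≤ T * Real.log T ^ (k ^ 2) :=
  fun _ hk _ hT hTk => Pool.Agent.W708.MZ.expl hk hT hTk

end Pool.Agent.Results.MP_3d0d30_nt.ExplicitRange
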