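import Mathlib
import Pool.Agent.W708.MZ.Asym

set_option autoImplicit false

namespace Pool.Agent.Results.MP_3d0d30_nt.WeylRange

open Complex

/-- The moment `M_k(T)`: the integral of `|ζ(1/2+it)|^(2k)` over `0 ≤ t ≤ T`, for real `k`. -/
noncomputable def M (k T : ℝ) : ℝ :=
  ∫ t in (0 : ℝ)..T, ‖riemannZeta (1 / 2 + t * I)‖ ^ (2 * k)

/-- For every `ε > 0` and every sufficiently large real `k`, the inequality
`M_k(T) ≤ T (log T)^(k^2)` of Q2 holds for every `T` with `1000 < T ≤ k^((3-ε)k)`. -/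
theorem result :
    ∀ ε : ℝ, 0 < ε → ∃ K : ℝ, 2 ≤ K ∧ ∀ k : ℝ, K ≤ k → ∀ T : ℝ, 1000 < T →
      T ≤ k ^ ((3 - ε) * k) → M k T ≤ T * Real.log T ^ (k ^ 2) :=
  fun ε hε => Pool.Agent.W708.MZ.asym ε hε

end Pool.Agent.Results.MP_3d0d30_nt.WeylRange
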